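import Mathlib

/-!
Bellamy's question on F. B. Jones's set function `T`: if `T` is continuous for the continuum `S`
and `T(p)` has nonempty interior for some point `p`, then `S` is indecomposable.

Only the continuity of `x ↦ T({x})` is needed. Outline of the proof. Write `y ∈ T(q)` for
`y ∈ T({q})`; this relation is closed, and `T(q)` is connected.

* (`mem_interior`) If `y ∈ T(q)` and `W` is a subcontinuum with `y ∈ int W`, then `q ∈ int W`:
  otherwise `q` is a limit of points `q'` outside `W`, for which `T(q')` misses `int W`. Hence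
  `y ∈ T(q)` implies `T(y) ⊆ T(q)`.
* (`exists_minimal`) Every `T(q)` contains a point `f` of the set `E` of all points `f` with
  `f ∈ T(y)` for all `y ∈ T(f)`.
* (`preconnected_minimal`) `E ∩ T(p)` is connected: a separation of it gives a separation of `T(p)`
  into the points `q` with `T(q) ∩ E` inside the first part and the others.
* (`mem_of_mem_interior`) If `y` is an interior point of `T(p)` and `p ∉ T(y)`, take a closed
  neighbourhood `R ⊆ T(p)` of `y` all of whose points `q` have `p ∉ T(q)`. Then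
  `(E ∩ T(p)) ∪ ⋃_{q ∈ R} T(q)` is a subcontinuum, a neighbourhood of `y`, and misses `p`; this
  contradicts `y ∈ T(p)`. So `p ∈ T(y)` for all `y` in `int T(p)`, and then for all `y` in its
  closure, which by the first point is contained in `int T(p)`. So `T(y) = S` for every `y`.
-/

set_option autoImplicit false

open Set Topology TopologicalSpace

namespace Pool.Agent.K7.H84.JT.JonesContinuity

universe u

variable {S : Type u} [TopologicalSpace S]

/-- A subcontinuum of `S`: a closed, nonempty and connected subset. -/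
def IsSubcontinuum (W : Set S) : Prop := IsClosed W ∧ IsConnected W

/-- Jones's set function `T`: the complement of the set of all points `x` for which some
subcontinuum `W` has `x` in its interior and is disjoint from `A`. -/
def T (A : Set S) : Set S := {x | ∃ W : Set S, IsSubcontinuum W ∧ x ∈ interior W ∧ W ∩ A = ∅}ᶜ

/-- `S` is indecomposable: it is not the union of two proper subcontinua. -/
def Indecomposable (S : Type u) [TopologicalSpace S] : Prop :=
  ¬ ∃ H K : Set S, IsSubcontinuum H ∧ IsSubcontinuum K ∧ H ≠ univ ∧ K ≠ univ ∧ H ∪ K = univ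

lemma mem_T {A : Set S} {x : S} :
    x ∈ T A ↔ ∀ W : Set S, IsSubcontinuum W → x ∈ interior W → (W ∩ A).Nonempty := by
  simp only [T, mem_compl_iff, mem_ofPred, not_exists, not_and, nonempty_iff_ne_empty, Ne]

lemma mem_T' {q x : S} :
    x ∈ T {q} ↔ ∀ W : Set S, IsSubcontinuum W → x ∈ interior W → q ∈ W := by
  simp only [mem_T, inter_singleton_nonempty]

lemma isClosed_T (A : Set S) : IsClosed (T A) := by
  rw [T, isClosed_compl_iff, isOpen_iff_forall_mem_open]
  rintro x ⟨W, hW, hx, hWA⟩
  exact ⟨interior W, fun y hy => ⟨W, hW, hy, hWA⟩, isOpen_interior, hx⟩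

lemma subset_T (A : Set S) : A ⊆ T A := by
  intro x hx
  rw [mem_T]
  intro W _ hxW
  exact ⟨x, interior_subset hxW, hx⟩

lemma self_mem (q : S) : q ∈ T {q} := subset_T _ rfl

/-- `T` as a self-map of the hyperspace of nonempty closed (= nonempty compact) subsets of the
compact space `S`; Mathlib's topology on `NonemptyCompacts S` is the Vietoris topology. -/
def jonesT [CompactSpace S] (A : NonemptyCompacts S) : NonemptyCompacts S where
  carrier := T (A : Set S)
  isCompact' := (isClosed_T _).isCompact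
  nonempty' := A.nonempty.mono (subset_T _)

lemma coe_jonesT [CompactSpace S] (A : NonemptyCompacts S) :
    ((jonesT A : NonemptyCompacts S) : Set S) = T (A : Set S) := rfl

/-- lower semicontinuity of `q ↦ T {q}` -/
def Lsc (S : Type u) [TopologicalSpace S] : Prop :=
  ∀ O : Set S, IsOpen O → IsOpen {q : S | (T {q} ∩ O).Nonempty}

/-- upper semicontinuity of `q ↦ T {q}` -/
def Usc (S : Type u) [TopologicalSpace S] : Prop :=
  ∀ O : Set S, IsOpen O → IsOpen {q : S | T {q} ⊆ O}

lemma isClosed_graph : IsClosed {x : S × S | x.2 ∈ T {x.1}} := by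
  rw [← isOpen_compl_iff, isOpen_iff_forall_mem_open]
  rintro ⟨q, y⟩ h
  simp only [mem_compl_iff, mem_ofPred, mem_T', not_forall] at h
  obtain ⟨W, hW, hy, hq⟩ := h
  refine ⟨Wᶜ ×ˢ interior W, ?_, hW.1.isOpen_compl.prod isOpen_interior, hq, hy⟩
  rintro ⟨q', y'⟩ ⟨h1, h2⟩ h3
  exact h1 (mem_T'.1 h3 W hW h2)

lemma mem_interior (hl : Lsc S) {q y : S} (hy : y ∈ T {q}) {W : Set S} (hW : IsSubcontinuum W)
    (hyW : y ∈ interior W) : q ∈ interior W := by
  by_contra hq
  have h1 : q ∈ closure Wᶜ := by rwa [closure_compl]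
  obtain ⟨q', h2, h3⟩ := mem_closure_iff.1 h1 _ (hl _ isOpen_interior) ⟨y, hy, hyW⟩
  obtain ⟨z, hz, hzW⟩ := h2
  exact h3 (mem_T'.1 hz W hW hzW)

lemma trans (hl : Lsc S) {q y z : S} (hz : z ∈ T {y}) (hy : y ∈ T {q}) : z ∈ T {q} := by
  rw [mem_T']
  intro W hW hzW
  exact mem_T'.1 hy W hW (mem_interior hl hz hW hzW)

section conn

variable [CompactSpace S] [T2Space S] [ConnectedSpace S]

/-- The key step in the proof that `T(q)` is connected. -/
lemma exists_subcontinuum {q y : S} {V : Set S} (hV : IsOpen V) (hy : y ∈ V) (hq : q ∉ closure V)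
    (hfr : ∀ x ∈ frontier V, x ∉ T {q}) : y ∉ T {q} := by
  classical
  have h1 : ∀ x ∈ frontier V, ∃ W : Set S, IsSubcontinuum W ∧ x ∈ interior W ∧ q ∉ W := by
    intro x hx
    have := hfr x hx
    simp only [mem_T', not_forall] at this
    obtain ⟨W, a, b, c⟩ := this
    exact ⟨W, a, b, c⟩
  choose! W hW hxW hqW using h1
  obtain ⟨t, ht, hcov⟩ := (isClosed_frontier (s := V)).isCompact.elim_nhds_subcover
    (fun x => interior (W x)) (fun x hx => isOpen_interior.mem_nhds (hxW x hx))
  -- the closed set `H`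
  set H : Set S := closure V ∪ ⋃ x ∈ t, W x with hH
  have hHc : IsClosed H := isClosed_closure.union
    (t.finite_toSet.isClosed_biUnion fun x hx => (hW x (ht x hx)).1)
  have hqH : q ∉ H := by
    rintro (h | h)
    · exact hq h
    · simp only [mem_iUnion] at h
      obtain ⟨x, hx, h⟩ := h
      exact hqW x (ht x hx) h
  have hVH : V ⊆ H := fun x hx => Or.inl (subset_closure hx)
  -- the number of indices met by `D`
  let n : Set S → ℕ := fun D => (t.filter fun x => (W x ∩ D).Nonempty).card
  let good : Set (Set S) := {D | IsClosed D ∧ IsClosed (H \ D) ∧ D ⊆ H ∧ y ∈ D}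
  have hgood : good.Nonempty := ⟨H, hHc, by simp, subset_rfl, hVH hy⟩
  obtain ⟨D, ⟨hDc, hDH, hDs, hyD⟩, hmin⟩ :
      ∃ D ∈ good, ∀ D' ∈ good, n D ≤ n D' := by
    obtain ⟨D, hD, hm⟩ := WellFounded.has_min (measure n).wf good hgood
    exact ⟨D, hD, fun D' hD' => not_lt.1 (hm D' hD')⟩
  have hyint : y ∈ interior D := by
    rw [_root_.mem_interior]
    refine ⟨V ∩ (H \ D)ᶜ, ?_, hV.inter hDH.isOpen_compl, hy, fun h => h.2 hyD⟩
    rintro z ⟨hz1, hz2⟩
    by_contra hz3
    exact hz2 ⟨hVH hz1, hz3⟩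
  -- symmetric half of the connectedness of `D`
  have key : ∀ u v : Set S, IsClosed u → IsClosed v → D ⊆ u ∪ v → Disjoint u v → y ∈ u →
      D ⊆ u := by
    intro u v hu hv hDuv huv hyu
    have hD1 : D ∩ u ∈ good := by
      refine ⟨hDc.inter hu, ?_, inter_subset_left.trans hDs, hyD, hyu⟩
      have : H \ (D ∩ u) = (H \ D) ∪ (D ∩ v) := by
        ext z
        constructor
        · rintro ⟨h1, h2⟩
          by_cases h3 : z ∈ D
          · right
            refine ⟨h3, ?_⟩
            rcases hDuv h3 with h4 | h4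
            · exact absurd ⟨h3, h4⟩ h2
            · exact h4
          · left; exact ⟨h1, h3⟩
        · rintro (⟨h1, h2⟩ | ⟨h1, h2⟩)
          · exact ⟨h1, fun h => h2 h.1⟩
          · exact ⟨hDs h1, fun h => Set.disjoint_left.1 huv h.2 h2⟩
      rw [this]
      exact hDH.union (hDc.inter hv)
    have hcard := hmin _ hD1
    have hsub : (t.filter fun x => (W x ∩ (D ∩ u)).Nonempty) ⊆
        (t.filter fun x => (W x ∩ D).Nonempty) := by
      intro x hx
      simp only [Finset.mem_filter] at hx ⊢
      exact ⟨hx.1, hx.2.mono (inter_subset_inter_right _ inter_subset_left)⟩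
    have heq := Finset.eq_of_subset_of_card_le hsub hcard
    -- no `W x` meets `D ∩ v`
    have hno : ∀ x ∈ t, W x ∩ (D ∩ v) = ∅ := by
      intro x hx
      by_contra hne
      rw [← Ne, ← nonempty_iff_ne_empty] at hne
      have h2 : x ∈ (t.filter fun x => (W x ∩ D).Nonempty) := by
        simp only [Finset.mem_filter]
        exact ⟨hx, hne.mono (inter_subset_inter_right _ inter_subset_left)⟩
      rw [← heq] at h2
      simp only [Finset.mem_filter] at h2
      obtain ⟨a, ha1, ha2, ha3⟩ := h2.2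
      obtain ⟨b, hb1, hb2, hb3⟩ := hne
      have hWH : W x ⊆ H := by
        intro z hz
        right
        simp only [mem_iUnion]
        exact ⟨x, hx, hz⟩
      have hpre := (hW x (ht x hx)).2.isPreconnected
      rw [isPreconnected_iff_subset_of_fully_disjoint_closed (hW x (ht x hx)).1] at hpre
      have h3 := hpre (D ∩ u) ((H \ D) ∪ (D ∩ v)) (hDc.inter hu) (hDH.union (hDc.inter hv))
        (by
          intro z hz
          by_cases h4 : z ∈ D
          · rcases hDuv h4 with h5 | h5
            · exact Or.inl ⟨h4, h5⟩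
            · exact Or.inr (Or.inr ⟨h4, h5⟩)
          · exact Or.inr (Or.inl ⟨hWH hz, h4⟩))
        (by
          rw [Set.disjoint_left]
          rintro z ⟨h4, h5⟩ (h6 | h6)
          · exact h6.2 h4
          · exact Set.disjoint_left.1 huv h5 h6.2)
      rcases h3 with h3 | h3
      · exact Set.disjoint_left.1 huv (h3 hb1).2 hb3
      · rcases h3 ha1 with h4 | h4
        · exact h4.2 ha2
        · exact Set.disjoint_left.1 huv ha3 h4.2
    -- so `D ∩ v ⊆ V` is clopen in `S`
    have hDvV : D ∩ v ⊆ V := by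
      intro z hz
      have h4 : z ∉ ⋃ x ∈ t, W x := by
        intro h
        simp only [mem_iUnion] at h
        obtain ⟨x, hx, h⟩ := h
        exact (hno x hx).subset ⟨h, hz⟩
      have h5 : z ∈ closure V := (hDs hz.1).resolve_right h4
      by_contra h6
      have h7 : z ∈ frontier V := by
        rw [hV.frontier_eq]; exact ⟨h5, h6⟩
      have h8 := hcov h7
      simp only [mem_iUnion] at h8 h4
      obtain ⟨x, hx, h8⟩ := h8
      exact h4 ⟨x, hx, interior_subset h8⟩
    have hopen : D ∩ v = V ∩ ((D ∩ u) ∪ (H \ D))ᶜ := by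
      ext z
      constructor
      · intro hz
        refine ⟨hDvV hz, ?_⟩
        rintro (h | h)
        · exact Set.disjoint_left.1 huv h.2 hz.2
        · exact h.2 hz.1
      · rintro ⟨h1, h2⟩
        by_cases h3 : z ∈ D
        · refine ⟨h3, ?_⟩
          rcases hDuv h3 with h4 | h4
          · exact absurd (Or.inl ⟨h3, h4⟩) h2
          · exact h4
        · exact absurd (Or.inr ⟨hVH h1, h3⟩) h2
    have hclopen : IsClopen (D ∩ v) := by
      refine ⟨hDc.inter hv, ?_⟩
      rw [hopen]
      exact hV.inter ((hDc.inter hu).union hDH).isOpen_compl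
    rcases isClopen_iff.1 hclopen with h | h
    · intro z hz
      rcases hDuv hz with h4 | h4
      · exact h4
      · exact absurd (h.subset ⟨hz, h4⟩) (by simp)
    · exfalso
      have : q ∈ D ∩ v := by rw [h]; trivial
      exact hqH (hDs this.1)
  have hDconn : IsPreconnected D := by
    rw [isPreconnected_iff_subset_of_fully_disjoint_closed hDc]
    intro u v hu hv hDuv huv
    rcases hDuv hyD with h | h
    · exact Or.inl (key u v hu hv hDuv huv h)
    · exact Or.inr (key v u hv hu (by rwa [union_comm]) huv.symm h)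
  intro hyT
  exact hqH (hDs (mem_T'.1 hyT D ⟨hDc, ⟨y, hyD⟩, hDconn⟩ hyint))

/-- `T(q)` is connected. -/
lemma isConnected_T (q : S) : IsConnected (T ({q} : Set S)) := by
  refine ⟨⟨q, self_mem q⟩, ?_⟩
  rw [isPreconnected_iff_subset_of_fully_disjoint_closed (isClosed_T _)]
  have key : ∀ u v : Set S, IsClosed u → IsClosed v → T {q} ⊆ u ∪ v → Disjoint u v → q ∈ u →
      T {q} ⊆ u := by
    intro u v hu hv hs hd hqu y hy
    rcases hs hy with h | h
    · exact h
    exfalso
    have hQ : IsClosed (T {q} ∩ v) := (isClosed_T _).inter hv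
    have hP : IsClosed (T {q} ∩ u) := (isClosed_T _).inter hu
    have hPQ : Disjoint (T {q} ∩ v) (T {q} ∩ u) := by
      rw [Set.disjoint_left]
      rintro z ⟨_, h1⟩ ⟨_, h2⟩
      exact Set.disjoint_left.1 hd h2 h1
    obtain ⟨V, V', hV, hV', hQV, hPV, hVV⟩ :=
      SeparatedNhds.of_isCompact_isCompact hQ.isCompact hP.isCompact hPQ
    have hcl : closure V ⊆ V'ᶜ :=
      closure_minimal (fun z hz hz' => Set.disjoint_left.1 hVV hz hz') hV'.isClosed_compl
    refine exists_subcontinuum (q := q) hV (hQV ⟨hy, h⟩) (fun hc => hcl hc (hPV ⟨self_mem q, hqu⟩))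
      ?_ hy
    intro x hx hxT
    rw [hV.frontier_eq] at hx
    rcases hs hxT with h1 | h1
    · exact hcl hx.1 (hPV ⟨hxT, h1⟩)
    · exact hx.2 (hQV ⟨hxT, h1⟩)
  intro u v hu hv hs hd
  rcases hs (self_mem q) with h | h
  · exact Or.inl (key u v hu hv hs hd h)
  · exact Or.inr (key v u hv hu (by rwa [union_comm]) hd.symm h)

omit [T2Space S] [ConnectedSpace S] in
/-- Every `T(q)` contains a minimal point. -/
lemma exists_minimal (hl : Lsc S) (q : S) :
    ∃ f ∈ T ({q} : Set S), ∀ y ∈ T ({f} : Set S), f ∈ T ({y} : Set S) := by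
  obtain ⟨m, -, hm⟩ := zorn_superset_nonempty ((fun y : S => T ({y} : Set S)) '' T {q}) (by
    intro c hc hchain hne
    have hnz : (⋂₀ c).Nonempty := by
      have := hne.to_subtype
      apply IsCompact.nonempty_sInter_of_directed_nonempty_isCompact_isClosed
      · intro a ha b hb
        rcases hchain.total ha hb with h | h
        · exact ⟨a, ha, subset_rfl, h⟩
        · exact ⟨b, hb, h, subset_rfl⟩
      · intro a ha
        obtain ⟨y, -, rfl⟩ := hc ha
        exact ⟨y, self_mem y⟩
      · intro a ha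
        obtain ⟨y, -, rfl⟩ := hc ha
        exact (isClosed_T _).isCompact
      · intro a ha
        obtain ⟨y, -, rfl⟩ := hc ha
        exact isClosed_T _
    obtain ⟨z, hz⟩ := hnz
    obtain ⟨a, ha⟩ := hne
    refine ⟨T {z}, ⟨z, ?_, rfl⟩, ?_⟩
    · obtain ⟨y, hy, rfl⟩ := hc ha
      exact trans hl (hz _ ha) hy
    · intro b hb
      obtain ⟨y, hy, rfl⟩ := hc hb
      intro w hw
      exact trans hl hw (hz _ hb)) (T {q}) ⟨q, self_mem q, rfl⟩
  obtain ⟨⟨f, hf, rfl⟩, hmin⟩ := hm
  refine ⟨f, hf, fun y hy => ?_⟩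
  have h1 : T ({y} : Set S) ⊆ T {f} := fun w hw => trans hl hw hy
  exact hmin ⟨y, trans hl hy hf, rfl⟩ h1 (self_mem f)

/-- The set of minimal points. -/
def E (S : Type u) [TopologicalSpace S] : Set S := {f | ∀ y ∈ T ({f} : Set S), f ∈ T ({y} : Set S)}

omit [CompactSpace S] [T2Space S] [ConnectedSpace S] in
lemma isClosed_E (hl : Lsc S) : IsClosed (E S) := by
  rw [← isOpen_compl_iff, isOpen_iff_forall_mem_open]
  intro f hf
  simp only [E, mem_compl_iff, mem_ofPred, not_forall] at hf
  obtain ⟨y, hy, hfy⟩ := hf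
  simp only [mem_T', not_forall] at hfy
  obtain ⟨W, hW, hfW, hyW⟩ := hfy
  refine ⟨{q | (T {q} ∩ Wᶜ).Nonempty} ∩ interior W, ?_,
    (hl _ hW.1.isOpen_compl).inter isOpen_interior, ⟨y, hy, hyW⟩, hfW⟩
  rintro q ⟨⟨z, hz, hzW⟩, hqW⟩ hq
  exact hzW (mem_T'.1 (hq z hz) W hW hqW)

omit [CompactSpace S] [T2Space S] [ConnectedSpace S] in
lemma T_subset_E (hl : Lsc S) {f : S} (hf : f ∈ E S) : T {f} ⊆ E S := by
  intro y hy z hz
  exact trans hl hy (hf z (trans hl hz hy))

/-- The minimal points of `T(p)` form a connected set. -/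
lemma preconnected_minimal (hl : Lsc S) (hu : Usc S) (p : S) :
    IsPreconnected (E S ∩ T {p}) := by
  have hEc : IsClosed (E S ∩ T {p}) := (isClosed_E hl).inter (isClosed_T _)
  rw [isPreconnected_iff_subset_of_fully_disjoint_closed hEc]
  intro u v hu' hv' hs hd
  by_contra hcon
  rw [not_or] at hcon
  obtain ⟨hcu, hcv⟩ := hcon
  obtain ⟨e₂, he₂, he₂u⟩ := not_subset.1 hcu
  obtain ⟨e₁, he₁, he₁v⟩ := not_subset.1 hcv
  have he₂v : e₂ ∈ v := (hs he₂).resolve_left he₂u
  have he₁u : e₁ ∈ u := (hs he₁).resolve_right he₁v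
  -- `T(f)` for `f` minimal lies on one side
  have hsub : ∀ f ∈ E S ∩ T {p}, T {f} ⊆ E S ∩ T {p} := fun f hf y hy =>
    ⟨T_subset_E hl hf.1 hy, trans hl hy hf.2⟩
  have hside : ∀ f ∈ E S ∩ T {p}, T {f} ⊆ u ∨ T {f} ⊆ v := by
    intro f hf
    have := (isConnected_T f).isPreconnected
    rw [isPreconnected_iff_subset_of_fully_disjoint_closed (isClosed_T _)] at this
    exact this u v hu' hv' ((hsub f hf).trans hs) hd
  have hside1 : ∀ f ∈ E S ∩ T {p}, f ∈ u → T {f} ⊆ u := by
    intro f hf hfu
    rcases hside f hf with h | h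
    · exact h
    · exact absurd (h (self_mem f)) (fun h' => Set.disjoint_left.1 hd hfu h')
  have hside2 : ∀ f ∈ E S ∩ T {p}, f ∈ v → T {f} ⊆ v := by
    intro f hf hfv
    rcases hside f hf with h | h
    · exact absurd (h (self_mem f)) (fun h' => Set.disjoint_left.1 hd h' hfv)
    · exact h
  set E₁ : Set S := (E S ∩ T {p}) ∩ u with hE₁
  set E₂ : Set S := (E S ∩ T {p}) ∩ v with hE₂
  have hE₁c : IsClosed E₁ := hEc.inter hu'
  have hE₂c : IsClosed E₂ := hEc.inter hv'
  set D : Set S := {y | T {y} ⊆ E₁ᶜ} with hD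
  have hDo : IsOpen D := hu _ hE₁c.isOpen_compl
  have hO₁ : IsOpen {q : S | T {q} ⊆ E₂ᶜ} := hu _ hE₂c.isOpen_compl
  have hO₂ : IsOpen {q : S | (T {q} ∩ D).Nonempty} := hl _ hDo
  have hmemD : ∀ f ∈ E₂, f ∈ D := by
    intro f hf y hy hy1
    exact Set.disjoint_left.1 hd hy1.2 (hside2 f hf.1 hf.2 hy)
  obtain ⟨q, hqP, hq1, ⟨y, hyq, hyD⟩⟩ := (isConnected_T p).isPreconnected _ _ hO₁ hO₂
    (by
      intro q hq
      by_cases h : T {q} ⊆ E₂ᶜ
      · exact Or.inl h
      · obtain ⟨f, hf, hf2⟩ := not_subset.1 h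
        rw [mem_compl_iff, not_not] at hf2
        exact Or.inr ⟨f, hf, hmemD f hf2⟩)
    ⟨e₁, he₁.2, fun y hy hy2 =>
      Set.disjoint_left.1 hd (hside1 e₁ he₁ he₁u hy) hy2.2⟩
    ⟨p, self_mem p, e₂, he₂.2, hmemD e₂ ⟨he₂, he₂v⟩⟩
  obtain ⟨f, hf, hfmin⟩ := exists_minimal hl y
  have hfq : f ∈ T {q} := trans hl hf hyq
  have hfP : f ∈ E S ∩ T {p} := ⟨hfmin, trans hl hfq hqP⟩
  rcases hs hfP with h | h
  · exact hyD hf ⟨hfP, h⟩
  · exact hq1 hfq ⟨hfP, h⟩

/-- All points of the interior of `T(p)` see `p`. -/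
lemma mem_of_mem_interior (hl : Lsc S) (hu : Usc S) {p y : S}
    (hy : y ∈ interior (T ({p} : Set S))) : p ∈ T ({y} : Set S) := by
  by_contra hpy
  -- the closed set `M` of all `q` with `p ∈ T(q)`
  have hM : IsClosed {q : S | p ∈ T {q}} :=
    isClosed_graph.preimage (f := fun q : S => (q, p)) (by fun_prop)
  have hnb : interior (T ({p} : Set S)) ∩ {q : S | p ∈ T {q}}ᶜ ∈ 𝓝 y :=
    (isOpen_interior.inter hM.isOpen_compl).mem_nhds ⟨hy, hpy⟩
  obtain ⟨R, hRn, hRc, hRs⟩ := exists_mem_nhds_isClosed_subset hnb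
  have hyR : y ∈ R := mem_of_mem_nhds hRn
  have hRp : ∀ q ∈ R, p ∉ T {q} := fun q hq => (hRs hq).2
  have hRT : ∀ q ∈ R, q ∈ T {p} := fun q hq => interior_subset (hRs hq).1
  set K : Set S := (E S ∩ T {p}) ∪ {z | ∃ q ∈ R, z ∈ T {q}} with hK
  have hKc : IsClosed K := by
    refine ((isClosed_E hl).inter (isClosed_T _)).union ?_
    have h1 : {z : S | ∃ q ∈ R, z ∈ T {q}} =
        Prod.snd '' ({x : S × S | x.2 ∈ T {x.1}} ∩ (Prod.fst ⁻¹' R)) := by
      ext z
      constructor
      · rintro ⟨q, hq, hz⟩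
        exact ⟨(q, z), ⟨hz, hq⟩, rfl⟩
      · rintro ⟨⟨q, z'⟩, ⟨h1, h2⟩, rfl⟩
        exact ⟨q, h2, h1⟩
    rw [h1]
    exact ((isClosed_graph.inter (hRc.preimage continuous_fst)).isCompact.image
      continuous_snd).isClosed
  obtain ⟨e, he, hemin⟩ := exists_minimal hl y
  have heP : e ∈ E S ∩ T {p} := ⟨hemin, trans hl he (hRT y hyR)⟩
  have hKconn : IsPreconnected K := by
    have h1 : K = ⋃₀ ((fun q : S => (E S ∩ T {p}) ∪ T {q}) '' R) := by
      ext z
      simp only [hK, mem_union, mem_sUnion, mem_image, exists_exists_and_eq_and, mem_ofPred]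
      constructor
      · rintro (h | ⟨q, hq, hz⟩)
        · exact ⟨y, hyR, Or.inl h⟩
        · exact ⟨q, hq, Or.inr hz⟩
      · rintro ⟨q, hq, h | h⟩
        · exact Or.inl h
        · exact Or.inr ⟨q, hq, h⟩
    rw [h1]
    apply isPreconnected_sUnion e
    · rintro _ ⟨q, hq, rfl⟩
      exact Or.inl heP
    · rintro _ ⟨q, hq, rfl⟩
      obtain ⟨f, hf, hfmin⟩ := exists_minimal hl q
      exact IsPreconnected.union f ⟨hfmin, trans hl hf (hRT q hq)⟩ hf
        (preconnected_minimal hl hu p) (isConnected_T q).isPreconnected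
  have hRK : R ⊆ K := fun q hq => Or.inr ⟨q, hq, self_mem q⟩
  have hyK : y ∈ interior K := interior_mono hRK (mem_interior_iff_mem_nhds.2 hRn)
  have hpK : p ∈ K := mem_T'.1 (hRT y hyR) K ⟨hKc, ⟨y, hRK hyR⟩, hKconn⟩ hyK
  rcases hpK with h | ⟨q, hq, h⟩
  · exact hRp y hyR (h.1 y (hRT y hyR))
  · exact hRp q hq h

/-- Every `T(y)` is all of `S`. -/
lemma T_eq_univ (hl : Lsc S) (hu : Usc S) {p : S} (hp : (interior (T ({p} : Set S))).Nonempty)
    (y : S) : T ({y} : Set S) = univ := by
  have hM : IsClosed {q : S | p ∈ T {q}} :=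
    isClosed_graph.preimage (f := fun q : S => (q, p)) (by fun_prop)
  obtain ⟨x, hx⟩ := hp
  have hclopen : IsClopen (interior (T ({p} : Set S))) := by
    refine ⟨?_, isOpen_interior⟩
    rw [← closure_subset_iff_isClosed]
    intro b hb
    have hbM : p ∈ T {b} := by
      have h1 : interior (T ({p} : Set S)) ⊆ {q : S | p ∈ T {q}} :=
        fun q hq => mem_of_mem_interior hl hu hq
      exact closure_minimal h1 hM hb
    have hxb : x ∈ T {b} := trans hl (interior_subset hx) hbM
    exact mem_interior hl hxb ⟨isClosed_T _, isConnected_T p⟩ hx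
  rcases isClopen_iff.1 hclopen with h | h
  · exact absurd (h.subset hx) (by simp)
  · have hy : y ∈ interior (T ({p} : Set S)) := by rw [h]; trivial
    have hpy := mem_of_mem_interior hl hu hy
    refine eq_univ_of_forall fun z => ?_
    have hz : z ∈ interior (T ({p} : Set S)) := by rw [h]; trivial
    exact trans hl (interior_subset hz) hpy

omit [CompactSpace S] [T2Space S] [ConnectedSpace S] in
lemma indecomposable_of_T (h : ∀ y : S, T ({y} : Set S) = univ) : Indecomposable S := by
  rintro ⟨H, K, hH, hK, hHu, hKu, hHK⟩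
  obtain ⟨x, hx⟩ := (ne_univ_iff_exists_notMem H).1 hHu
  obtain ⟨y, hy⟩ := (ne_univ_iff_exists_notMem K).1 hKu
  have hxK : x ∈ interior K := by
    rw [_root_.mem_interior]
    refine ⟨Hᶜ, fun z hz => ?_, hH.1.isOpen_compl, hx⟩
    have : z ∈ H ∪ K := by rw [hHK]; trivial
    exact this.resolve_left hz
  have hxT : x ∈ T {y} := by rw [h y]; trivial
  exact hy (mem_T'.1 hxT K hK hxK)

end conn

/-- **Bellamy's question.** Let `S` be a continuum (a compact connected Hausdorff space) for which
Jones's set function `T` is continuous, as a self-map of the hyperspace of nonempty closed subsets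
with the Vietoris topology, and let `p` be a point such that `T({p})` has nonempty interior. Then
`S` is indecomposable. In fact it is enough that the map `x ↦ T({x})` from `S` to the hyperspace is
continuous. -/
theorem result :
    (∀ (S : Type u) [TopologicalSpace S] [CompactSpace S] [T2Space S] [ConnectedSpace S],
      Continuous (jonesT : NonemptyCompacts S → NonemptyCompacts S) →
      (∃ p : S, (interior (T ({p} : Set S))).Nonempty) → Indecomposable S) ∧
    (∀ (S : Type u) [TopologicalSpace S] [CompactSpace S] [T2Space S] [ConnectedSpace S],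
      Continuous (fun x : S => (jonesT {x} : NonemptyCompacts S)) →
      (∃ p : S, (interior (T ({p} : Set S))).Nonempty) → Indecomposable S) := by
  have main : ∀ (S : Type u) [TopologicalSpace S] [CompactSpace S] [T2Space S] [ConnectedSpace S],
      Continuous (fun x : S => (jonesT {x} : NonemptyCompacts S)) →
      (∃ p : S, (interior (T ({p} : Set S))).Nonempty) → Indecomposable S := by
    intro S _ _ _ _ hT hp
    obtain ⟨p, hp⟩ := hp
    have hl : Lsc S := fun O hO =>
      (NonemptyCompacts.isOpen_inter_nonempty_of_isOpen hO).preimage hT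
    have hu : Usc S := fun O hO =>
      (NonemptyCompacts.isOpen_subsets_of_isOpen hO).preimage hT
    exact indecomposable_of_T (T_eq_univ hl hu hp)
  exact ⟨fun S _ _ _ _ hT hp => main S (hT.comp NonemptyCompacts.continuous_singleton) hp, main⟩

end Pool.Agent.K7.H84.JT.JonesContinuity
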